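import Mathlib

/-!
# A `4 × 4` integer matrix with `det A = det A^{∘3} = 1` and all entries at least `2`
-/

namespace Pool.Agent.Results.MP_52c232_nt.CubeUnimodular

/-- There are `n ≥ 1` (namely `n = 4`) and an `n × n` integer matrix `A`, all of whose entries
are at least `2` (so none is `-1`, `0` or `1`), such that both `A` and its entrywise cube have
determinant `1`. -/
theorem result : ∃ A : Matrix (Fin 4) (Fin 4) ℤ, (∀ i j, 2 ≤ A i j) ∧
    A.det = 1 ∧ (A.map (fun x => x ^ 3)).det = 1 := by
  refine ⟨!![2, 3, 3, 2; 3, 3, 4, 2; 2, 5, 2, 2; 4, 6, 7, 5], ?_, ?_, ?_⟩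
  · intro i j
    fin_cases i <;> fin_cases j <;> simp
  · decide +kernel
  · decide +kernel

end Pool.Agent.Results.MP_52c232_nt.CubeUnimodular
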